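import Pool.Agent.H76.SF.Stm

set_option autoImplicit false

namespace H43.SF

open H76.SF Finset Classical

theorem spl {V : Type} [Fintype V] (p : V → Prop) (W : Finset V) :
    (W.filter p).card + ((univ \ W).filter p).card = (univ.filter p).card := by
  rw [← card_union_of_disjoint, ← filter_union, union_sdiff_of_subset (subset_univ W)]
  exact disjoint_filter_filter disjoint_sdiff

theorem nin {V : Type} [Fintype V] (G : SimpleGraph V) (A : Finset V) (v : V) (hv : v ∈ A) :
    (A.filter (fun x => G.Adj v x)).card + (A.filter (fun x => Gᶜ.Adj v x)).card + 1 = A.card := by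
  have h1 := Finset.card_filter_add_card_filter_not (s := A) (fun x => G.Adj v x)
  have h2 : A.filter (fun x => ¬ G.Adj v x) = insert v (A.filter (fun x => Gᶜ.Adj v x)) := by
    ext x
    simp only [mem_filter, mem_insert, SimpleGraph.compl_adj]
    constructor
    · rintro ⟨hx, hn⟩
      by_cases hxv : x = v
      · exact Or.inl hxv
      · exact Or.inr ⟨hx, fun h => hxv h.symm, hn⟩
    · rintro (h | ⟨hx, _, hn⟩)
      · rw [h]
        exact ⟨hv, G.irrefl⟩
      · exact ⟨hx, hn⟩
  rw [h2, card_insert_of_notMem (by simp)] at h1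
  omega

theorem nout {V : Type} [Fintype V] (G : SimpleGraph V) (A : Finset V) (v : V) (hv : v ∉ A) :
    (A.filter (fun x => G.Adj v x)).card + (A.filter (fun x => Gᶜ.Adj v x)).card = A.card := by
  have h1 := Finset.card_filter_add_card_filter_not (s := A) (fun x => G.Adj v x)
  have h2 : A.filter (fun x => ¬ G.Adj v x) = A.filter (fun x => Gᶜ.Adj v x) := by
    ext x
    simp only [mem_filter, SimpleGraph.compl_adj]
    constructor
    · rintro ⟨hx, hn⟩
      exact ⟨hx, fun h => hv (h ▸ hx), hn⟩
    · rintro ⟨hx, _, hn⟩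
      exact ⟨hx, hn⟩
  rw [h2] at h1
  omega

theorem t_ONE (hGRE : S_GRE) (hSPA : S_SPA) : S_ONE := by
  intro V _ G n r q hr hV hm hdeg
  by_contra hno
  obtain ⟨m, hmdef⟩ : ∃ m : ℕ, m = r * (q + 1) := ⟨_, rfl⟩
  have hrm : r ≤ m := by
    rw [hmdef]
    exact Nat.le_mul_of_pos_right r (Nat.succ_pos q)
  rw [← hmdef] at hm
  have hdG : ∀ v, n + r ≤ (univ.filter (fun x => G.Adj v x)).card := by
    intro v
    have h1 := nin G univ v (mem_univ v)
    have h2 := hdeg v
    rw [card_univ, hV] at h1
    omega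
  have hne : Nonempty V := by
    rw [← Fintype.card_pos_iff, hV]
    omega
  obtain ⟨v0⟩ := hne
  obtain ⟨W, hWc, hW⟩ := hSPA V G n r q v0 hr ((Nat.le_add_right n r).trans (hdG v0)) hno
  rw [← hmdef] at hW
  rw [hV] at hWc
  -- typical vertices
  have hT : n ≤ (W.filter (fun w => (W.filter (fun x => G.Adj w x)).card < m)).card := by
    have h1 := Finset.card_filter_add_card_filter_not (s := W)
      (fun w => m ≤ (W.filter (fun x => G.Adj w x)).card)
    have h2 : (W.filter (fun w => ¬ m ≤ (W.filter (fun x => G.Adj w x)).card)) =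
        (W.filter (fun w => (W.filter (fun x => G.Adj w x)).card < m)) := by
      ext w
      simp only [mem_filter, not_le]
    rw [h2] at h1
    omega
  obtain ⟨T0, hT0, hT0c⟩ := exists_subset_card_eq hT
  have hU : (univ \ W).card = n + 1 := by
    rw [card_sdiff_of_subset (subset_univ W), card_univ, hV]
    omega
  have hTW : ∀ w ∈ T0, w ∈ W ∧ (W.filter (fun x => G.Adj w x)).card < m := by
    intro w hw
    exact mem_filter.1 (hT0 hw)
  have hTU : ∀ w ∈ T0, ((univ \ W).filter (fun x => Gᶜ.Adj w x)).card + r ≤ m := by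
    intro w hw
    obtain ⟨h1, h2⟩ := hTW w hw
    have h3 := nin G W w h1
    have h4 : (W.filter (fun x => Gᶜ.Adj w x)).card +
        ((univ \ W).filter (fun x => Gᶜ.Adj w x)).card =
        (univ.filter (fun x => Gᶜ.Adj w x)).card := by
      convert spl (fun x => Gᶜ.Adj w x) W
    have h5 := hdeg w
    omega
  -- bad vertices
  obtain ⟨Bad, hBad⟩ : ∃ Bad : Finset V, Bad = (univ \ W).filter
    (fun u => (W.filter (fun x => G.Adj u x)).card ≤ 2 * m) := ⟨_, rfl⟩
  have hBc : Bad.card * (n - 2 * m) ≤ T0.card * m := by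
    refine Finset.card_mul_le_card_mul (fun u w => Gᶜ.Adj u w) (fun u hu => ?_) (fun w hw => ?_)
    · rw [hBad, mem_filter, mem_sdiff] at hu
      have huT : u ∉ T0 := fun h => hu.1.2 (hTW u h).1
      have h1 := nout G T0 u huT
      have h2 : (T0.filter (fun x => G.Adj u x)).card ≤ (W.filter (fun x => G.Adj u x)).card := by
        refine card_le_card (filter_subset_filter _ (fun x hx => (hTW x hx).1))
      have h3 := hu.2
      show n - 2 * m ≤ (T0.filter (fun x => Gᶜ.Adj u x)).card
      omega
    · have h1 := hTU w hw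
      have h2 : (Bad.filter (fun u => Gᶜ.Adj u w)).card ≤
          ((univ \ W).filter (fun x => Gᶜ.Adj w x)).card := by
        refine card_le_card (fun u hu => ?_)
        rw [mem_filter, hBad, mem_filter] at hu
        exact mem_filter.2 ⟨hu.1.1, hu.2.symm⟩
      show (Bad.filter (fun u => Gᶜ.Adj u w)).card ≤ m
      omega
  have hB : Bad.card ≤ 2 * m := by
    by_contra hcon
    push Not at hcon
    have h1 : (2 * m + 1) * (n - 2 * m) ≤ n * m := by
      rw [← hT0c]
      rw [← hT0c] at hBc
      exact (Nat.mul_le_mul_right _ hcon).trans hBc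
    obtain ⟨s, hs⟩ : ∃ s, n = 2 * m + s := ⟨n - 2 * m, by omega⟩
    have h2 : n - 2 * m = s := by omega
    rw [h2, hs] at h1
    have h3 : 18 * m ≤ s := by omega
    have h4 : 18 * m * m ≤ s * m := Nat.mul_le_mul_right m h3
    nlinarith
  -- the centre
  have hT0ne : T0.Nonempty := by
    rw [← card_pos, hT0c]
    omega
  obtain ⟨w, hw⟩ := hT0ne
  obtain ⟨hwW, hwd⟩ := hTW w hw
  have hwU : w ∉ univ \ W := by
    rw [mem_sdiff]
    exact fun h => h.2 hwW
  have hg : r ≤ (((univ \ W).filter (fun x => G.Adj w x)) \ Bad).card := by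
    have h1 := nout G (univ \ W) w hwU
    have h2 := hTU w hw
    have h3 := le_card_sdiff Bad ((univ \ W).filter (fun x => G.Adj w x))
    omega
  obtain ⟨R, hRs, hRc⟩ := exists_subset_card_eq hg
  have hRe : Nonempty (Fin r ≃ R) := by
    refine ⟨(Fintype.equivFinOfCardEq ?_).symm⟩
    rw [Fintype.card_coe, hRc]
  obtain ⟨e⟩ := hRe
  have hR : ∀ u ∈ R, (u ∉ W ∧ G.Adj w u) ∧ 2 * m < (W.filter (fun x => G.Adj u x)).card := by
    intro u hu
    have h1 := hRs hu
    rw [mem_sdiff, mem_filter, mem_sdiff] at h1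
    refine ⟨⟨h1.1.1.2, h1.1.2⟩, ?_⟩
    by_contra h2
    push Not at h2
    apply h1.2
    rw [hBad, mem_filter, mem_sdiff]
    exact ⟨h1.1.1, h2⟩
  have hLc : n ≤ ((univ.filter (fun x => G.Adj w x)) \ R).card := by
    have h1 := le_card_sdiff R (univ.filter (fun x => G.Adj w x))
    have h2 := hdG w
    omega
  obtain ⟨L, hLs, hLn⟩ := exists_subset_card_eq hLc
  apply hno
  refine hGRE V G n r q w L (fun i => (e i : V)) hLn ?_ ?_ ?_ ?_
  · intro x hx
    have := hLs hx
    rw [mem_sdiff, mem_filter] at this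
    exact this.1.2
  · intro i j hij
    exact e.injective (Subtype.ext hij)
  · intro i
    constructor
    · intro h
      have h1 := (hR (e i) (e i).2).1.1
      rw [h] at h1
      exact h1 hwW
    · intro h
      have := hLs h
      rw [mem_sdiff] at this
      exact this.2 (e i).2
  · intro i
    rw [← hmdef]
    have h1 := (hR (e i) (e i).2).2
    have h2 : (W.filter (fun x => G.Adj (e i : V) x)) \ (insert w (W.filter (fun x => G.Adj w x)))
        ⊆ univ.filter (fun x => G.Adj (e i : V) x ∧ x ∉ L ∧ x ≠ w) := by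
      intro x hx
      rw [mem_sdiff, mem_filter, mem_insert, mem_filter] at hx
      push Not at hx
      rw [mem_filter]
      refine ⟨mem_univ _, hx.1.2, ?_, hx.2.1⟩
      intro hxL
      have := hLs hxL
      rw [mem_sdiff, mem_filter] at this
      exact hx.2.2 hx.1.1 this.1.2
    have h3 := card_le_card h2
    have h4 := le_card_sdiff (insert w (W.filter (fun x => G.Adj w x)))
      (W.filter (fun x => G.Adj (e i : V) x))
    have h5 := card_insert_le w (W.filter (fun x => G.Adj w x))
    omega

end H43.SF
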